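import Pool.Agent.Helper24.ON.H88.TL.Guess

set_option autoImplicit false

open Finset
open Pool.Agent.Helper84.SP

namespace Pool.Agent.Helper88.TL

variable {G Q : Type*} [AddCommGroup G] [DecidableEq G] [AddCommGroup Q] [DecidableEq Q]

/-- both sets concentrated on one class -/
theorem conc_pair (π : G →+ Q) {X X' : Finset G} (hX : X.Nonempty) (hX' : X'.Nonempty)
    {z z' : Q} (hz : 7 / 8 * (X.card : ℝ) ≤ (cl π X z).card)
    (hz' : 7 / 8 * (X'.card : ℝ) ≤ (cl π X' z').card) {ρ : ℝ} (hρ0 : 0 ≤ ρ)
    (h : ((cl π X' z').card : ℝ) ≤ (1 - ρ) * X'.card) : PG π X X' (ρ / 8) := by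
  have hXp : (0 : ℝ) < X.card := by exact_mod_cast card_pos.2 hX
  have hX'p : (0 : ℝ) < X'.card := by exact_mod_cast card_pos.2 hX'
  have key := J_test π (X := X) (X' := X') (fun w => w ≠ z + z') (fun c => c = z')
    (fun c => c ≠ z') (fun c hc => hc.2 hc.1) (pL := 1 / 8) (pU := 7 / 8) (t := 3 / 4)
    (a := 7 / 8) (b := ρ) ?_ ?_ (by norm_num) (by norm_num) (by norm_num) (by norm_num) hρ0 ?_ ?_
  · have h2 := pair_super π X' X
    have h3 : (0 : ℝ) ≤ X.card * X'.card * ρ := by positivity
    unfold PG
    nlinarith [key, h2, h3]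
  · intro y _ hyc
    have hsub : X.filter (fun x => π (x + y) ≠ z + z') = X \ cl π X z := by
      ext x
      simp only [mem_filter, mem_sdiff, mem_cl, map_add]
      constructor
      · rintro ⟨hx, hne⟩
        refine ⟨hx, fun hcl => hne ?_⟩
        rw [hcl.2, hyc]
      · rintro ⟨hx, hncl⟩
        refine ⟨hx, fun he => hncl ⟨hx, ?_⟩⟩
        rw [hyc] at he
        exact add_right_cancel he
    have hcard : (X \ cl π X z).card + (cl π X z).card = X.card :=
      card_sdiff_add_card_eq_card (cl_subset π X z)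
    have hcard' : ((X \ cl π X z).card : ℝ) + (cl π X z).card = X.card := by
      exact_mod_cast hcard
    rw [hsub]
    linarith
  · intro y _ hyc
    have hsub : cl π X z ⊆ X.filter (fun x => π (x + y) ≠ z + z') := by
      intro x hx
      obtain ⟨hx1, hx2⟩ := mem_cl.1 hx
      refine mem_filter.2 ⟨hx1, ?_⟩
      rw [map_add, hx2]
      intro he
      exact hyc (add_left_cancel he)
    have hle : ((cl π X z).card : ℝ) ≤ ((X.filter (fun x => π (x + y) ≠ z + z')).card : ℝ) := by
      exact_mod_cast card_le_card hsub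
    linarith
  · exact hz'
  · have hsub : X'.filter (fun y => π y ≠ z') = X' \ cl π X' z' := by
      ext y
      simp only [mem_filter, mem_sdiff, mem_cl]
      constructor
      · rintro ⟨hy, hne⟩
        exact ⟨hy, fun hcl => hne hcl.2⟩
      · rintro ⟨hy, hncl⟩
        exact ⟨hy, fun he => hncl ⟨hy, he⟩⟩
    have hcard : (X' \ cl π X' z').card + (cl π X' z').card = X'.card :=
      card_sdiff_add_card_eq_card (cl_subset π X' z')
    have hcard' : ((X' \ cl π X' z').card : ℝ) + (cl π X' z').card = X'.card := by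
      exact_mod_cast hcard
    rw [hsub]
    linarith

end Pool.Agent.Helper88.TL
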