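import Pool.Agent.Helper24.ON.H88.TL.Group
import Pool.Agent.Helper24.ON.H24.ES.Node2

set_option autoImplicit false

open Finset
open Pool.Agent.Helper84.SP

namespace Pool.Agent.Helper88.TL

/-- the bound for small primes -/
noncomputable def Q0 (B : ℝ) : ℕ := ⌈6 * Real.exp (2 * B)⌉₊ + 1

/-- elements of `ℤ / q ^ (l + 1)` have order at least `q` -/
theorem order_ge {q l : ℕ} (hq : q.Prime) {t : ZMod (q ^ (l + 1))} (ht : t ≠ 0) {j : ℕ}
    (hj1 : 1 ≤ j) (hjq : j < q) : j • t ≠ 0 := by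
  haveI : NeZero (q ^ (l + 1)) := ⟨pow_ne_zero _ hq.ne_zero⟩
  intro h0
  apply ht
  have h1 : ((j * t.val : ℕ) : ZMod (q ^ (l + 1))) = 0 := by
    rw [Nat.cast_mul, ZMod.natCast_zmod_val, ← nsmul_eq_mul]
    exact h0
  rw [ZMod.natCast_eq_zero_iff] at h1
  have hco : Nat.Coprime (q ^ (l + 1)) j := by
    apply Nat.Coprime.pow_left
    rw [Nat.Prime.coprime_iff_not_dvd hq]
    intro hd
    exact absurd (Nat.le_of_dvd (by omega) hd) (by omega)
  have h2 : q ^ (l + 1) ∣ t.val := hco.dvd_of_dvd_mul_left h1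
  have h3 : t.val = 0 := Nat.eq_zero_of_dvd_of_lt h2 (ZMod.val_lt t)
  exact (ZMod.val_eq_zero t).1 h3

/-- the mass of the popular classes -/
theorem Field_mass {q l : ℕ} {X : Finset ℤ} (hX : X.Nonempty) (S : Finset (ZMod (q ^ (l + 1)))) :
    ∑ w ∈ S, law (piA q l) X w = 1 - (Pool.Agent.Helper24.ES.off (piA q l) X S : ℝ) / X.card := by
  have hXc : (0 : ℝ) < X.card := by exact_mod_cast card_pos.2 hX
  have h1 : (∑ w ∈ S, ((cl (piA q l) X w).card : ℝ)) =
      ((X.filter (fun x => piA q l x ∈ S)).card : ℝ) := by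
    have h2 : (X.filter (fun x => piA q l x ∈ S)).card =
        ∑ w ∈ S, ((X.filter (fun x => piA q l x ∈ S)).filter (fun x => piA q l x = w)).card :=
      card_eq_sum_card_fiberwise (fun x hx => (mem_filter.1 hx).2)
    rw [h2, Nat.cast_sum]
    refine sum_congr rfl (fun w hw => ?_)
    congr 2
    unfold cl
    ext x
    simp only [mem_filter]
    constructor
    · rintro ⟨hx, hxw⟩
      exact ⟨⟨hx, by rw [hxw]; exact hw⟩, hxw⟩
    · rintro ⟨⟨hx, _⟩, hxw⟩
      exact ⟨hx, hxw⟩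
  have h3 : ((X.filter (fun x => piA q l x ∈ S)).card : ℝ) +
      ((X.filter (fun x => ¬ piA q l x ∈ S)).card : ℝ) = X.card := by
    exact_mod_cast card_filter_add_card_filter_not (s := X) (fun x => piA q l x ∈ S)
  unfold law Pool.Agent.Helper24.ES.off
  rw [← sum_div, h1, eq_sub_iff_add_eq, ← add_div, h3, div_self hXc.ne']

/-- Two sets which are spread, but not too much, modulo a power of a large prime have
doubling. -/
theorem field_gain {q l : ℕ} (hq : q.Prime) {X X' : Finset ℤ} (hX : X.Nonempty)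
    (hX' : X'.Nonempty) {B : ℝ} (hB : 0 < B) (hE : Ent (piA q l) X / X.card ≤ B)
    (hm' : ∀ c, ((cl (piA q l) X' c).card : ℝ) < 7 / 8 * X'.card) (hqB : Q0 B ≤ q) :
    PG (piA q l) X X' (1 / 73728) := by
  haveI : NeZero (q ^ (l + 1)) := ⟨pow_ne_zero _ hq.ne_zero⟩
  have hXc : (0 : ℝ) < X.card := by exact_mod_cast card_pos.2 hX
  have hXc' : (0 : ℝ) < X'.card := by exact_mod_cast card_pos.2 hX'
  have hprod : (0 : ℝ) ≤ X.card * X'.card := (mul_pos hXc hXc').le
  set τ₁ : ℝ := ∑ z, law (piA q l) X' z *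
    tv (tr (law (piA q l) X) z) (conv (law (piA q l) X) (law (piA q l) X')) with hτ₁
  set τ₂ : ℝ := ∑ z, law (piA q l) X z *
    tv (tr (law (piA q l) X') z) (conv (law (piA q l) X') (law (piA q l) X)) with hτ₂
  have hJ1 := J_tv (piA q l) hX hX' hτ₁
  have hJ2 := J_tv (piA q l) hX' hX hτ₂
  by_cases h1 : 1 / 96 ≤ τ₁
  · have hsup := pair_super (piA q l) X' X
    have hsq : (1 : ℝ) / 73728 ≤ τ₁ ^ 2 / 8 := by nlinarith only [h1]
    have := mul_le_mul_of_nonneg_left hsq hprod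
    unfold PG
    linarith only [hJ1, hsup, this]
  by_cases h2 : 1 / 96 ≤ τ₂
  · have hsup := pair_super (piA q l) X X'
    have hsq : (1 : ℝ) / 73728 ≤ τ₂ ^ 2 / 8 := by nlinarith only [h2]
    have := mul_le_mul_of_nonneg_left hsq hprod
    have hc : (X'.card : ℝ) * X.card = X.card * X'.card := mul_comm _ _
    rw [hc] at hJ2
    unfold PG
    linarith only [hJ2, hsup, this]
  exfalso
  push Not at h1 h2
  obtain ⟨S, hScard, hSoff⟩ := Pool.Agent.Helper24.ES.exists_pop (piA q l) hX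
    (T := Real.exp (2 * B)) (by rw [Real.one_lt_exp_iff]; linarith only [hB])
  rw [Real.log_exp] at hSoff
  have hoff : (Pool.Agent.Helper24.ES.off (piA q l) X S : ℝ) / X.card ≤ 1 / 2 := by
    have h3 := hSoff.trans hE
    by_contra hcon
    push Not at hcon
    nlinarith only [hB, h3, hcon]
  have hS : 1 / 2 ≤ ∑ w ∈ S, law (piA q l) X w := by
    rw [Field_mass hX]
    linarith only [hoff]
  have hSq : 6 * S.card < q := by
    have h4 : (6 : ℝ) * S.card ≤ 6 * Real.exp (2 * B) := by linarith only [hScard]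
    have h5 : (6 * S.card : ℕ) ≤ ⌈6 * Real.exp (2 * B)⌉₊ := by
      have h6 : ((6 * S.card : ℕ) : ℝ) ≤ (⌈6 * Real.exp (2 * B)⌉₊ : ℝ) := by
        push_cast
        exact h4.trans (Nat.le_ceil _)
      exact_mod_cast h6
    unfold Q0 at hqB
    omega
  rw [conv_comm (law (piA q l) X') (law (piA q l) X)] at hτ₂
  obtain ⟨z, hz⟩ := group_gain (law (piA q l) X) (law (piA q l) X') (law_nonneg _ _)
    (law_sum _ hX) (law_nonneg _ _) (law_sum _ hX') (by rw [← hτ₁]; exact h1)
    (by rw [← hτ₂]; exact h2)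
    (fun t ht j hj1 hjq => order_ge hq ht hj1 hjq) S hS hSq
  have h7 := hm' z
  unfold law at hz
  rw [le_div_iff₀ hXc'] at hz
  linarith only [hz, h7]

end Pool.Agent.Helper88.TL
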