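import Pool.Agent.Helper24.ON.H88.TL.Guess

set_option autoImplicit false

/-!
MP_120218_co, theorem TL: gain from total variation.
-/

open Finset
open Pool.Agent.Helper84.SP

namespace Pool.Agent.Helper88.TL

variable {G Q : Type*} [AddCommGroup G] [DecidableEq G] [AddCommGroup Q] [DecidableEq Q]

/-- the law of the class of a random point of `X` -/
noncomputable def law (π : G →+ Q) (X : Finset G) (w : Q) : ℝ := (cl π X w).card / X.card

/-- total variation distance -/
noncomputable def tv [Fintype Q] (F F' : Q → ℝ) : ℝ := (∑ w, |F w - F' w|) / 2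

/-- the translate `w ↦ F (w - t)` -/
def tr (F : Q → ℝ) (t : Q) (w : Q) : ℝ := F (w - t)

/-- the convolution -/
noncomputable def conv [Fintype Q] (F F' : Q → ℝ) (w : Q) : ℝ := ∑ z, F' z * F (w - z)

omit [DecidableEq G] in
theorem law_nonneg (π : G →+ Q) (X : Finset G) (w : Q) : 0 ≤ law π X w := by
  unfold law; positivity

omit [DecidableEq G] in
theorem TV_comp [Fintype Q] (π : G →+ Q) {X : Finset G} (hX : X.Nonempty) (k : Q → ℝ) :
    ∑ x ∈ X, k (π x) = X.card * ∑ w, law π X w * k w := by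
  have hc : (X.card : ℝ) ≠ 0 := by exact_mod_cast hX.card_pos.ne'
  rw [← Finset.sum_fiberwise X π (fun x => k (π x)), Finset.mul_sum]
  refine sum_congr rfl (fun w _ => ?_)
  have h1 : ∑ x ∈ X with π x = w, k (π x) = ∑ x ∈ X with π x = w, k w := by
    refine sum_congr rfl (fun x hx => ?_)
    rw [(mem_filter.mp hx).2]
  rw [h1, sum_const, nsmul_eq_mul]
  unfold law cl
  field_simp

omit [DecidableEq G] in
theorem law_sum [Fintype Q] (π : G →+ Q) {X : Finset G} (hX : X.Nonempty) :
    ∑ w, law π X w = 1 := by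
  have hc : (X.card : ℝ) ≠ 0 := by exact_mod_cast hX.card_pos.ne'
  have h := TV_comp π hX (fun _ => (1 : ℝ))
  simp only [sum_const, nsmul_eq_mul, mul_one] at h
  have h2 : (X.card : ℝ) * 1 = X.card * ∑ w, law π X w := by rw [mul_one]; exact h
  exact (mul_left_cancel₀ hc h2).symm

omit [DecidableEq Q] in
theorem conv_comm [Fintype Q] (F F' : Q → ℝ) : conv F F' = conv F' F := by
  funext w
  unfold conv
  refine Fintype.sum_equiv (Equiv.subLeft w) _ _ (fun z => ?_)
  simp only [Equiv.subLeft_apply, sub_sub_cancel]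
  ring

omit [DecidableEq Q] in
theorem TV_shift [Fintype Q] (F : Q → ℝ) (z : Q) (k : Q → ℝ) :
    ∑ w, F w * k (w + z) = ∑ w, F (w - z) * k w := by
  refine Fintype.sum_equiv (Equiv.addRight z) _ _ (fun w => ?_)
  simp only [Equiv.coe_addRight, add_sub_cancel_right]

omit [DecidableEq G] in
theorem TV_pair [Fintype Q] (π : G →+ Q) {X X' : Finset G} (hX : X.Nonempty)
    (hX' : X'.Nonempty) (h : Q → Q → ℝ) :
    ∑ x ∈ X, ∑ y ∈ X', h (π y) (π (x + y)) =
      X.card * X'.card * ∑ z, law π X' z * ∑ w, law π X (w - z) * h z w := by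
  rw [sum_comm]
  have h1 : ∀ y ∈ X', ∑ x ∈ X, h (π y) (π (x + y)) =
      X.card * ∑ w, law π X (w - π y) * h (π y) w := by
    intro y _
    have h2 := TV_comp π hX (fun w => h (π y) (w + π y))
    rw [TV_shift (law π X) (π y) (h (π y))] at h2
    rw [← h2]
    refine sum_congr rfl (fun x _ => ?_)
    rw [map_add]
  rw [sum_congr rfl h1, ← Finset.mul_sum]
  rw [TV_comp π hX' (fun z => ∑ w, law π X (w - z) * h z w)]
  ring

omit [DecidableEq G] in
theorem TV_tr_sum [Fintype Q] (π : G →+ Q) {X : Finset G} (hX : X.Nonempty) (z : Q) :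
    ∑ w, law π X (w - z) = 1 := by
  have h := TV_shift (law π X) z (fun _ => (1 : ℝ))
  simp only [mul_one] at h
  rw [← h, law_sum π hX]

omit [DecidableEq G] in
theorem TV_conv_sum [Fintype Q] (π : G →+ Q) {X X' : Finset G} (hX : X.Nonempty)
    (hX' : X'.Nonempty) : ∑ w, conv (law π X) (law π X') w = 1 := by
  unfold conv
  rw [sum_comm]
  have : ∀ z ∈ (univ : Finset Q), ∑ w, law π X' z * law π X (w - z) = law π X' z := by
    intro z _
    rw [← Finset.mul_sum, TV_tr_sum π hX z, mul_one]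
  rw [sum_congr rfl this, law_sum π hX']

omit [DecidableEq G] in
theorem TV_conv_nonneg [Fintype Q] (π : G →+ Q) (X X' : Finset G) (w : Q) :
    0 ≤ conv (law π X) (law π X') w := by
  unfold conv
  exact sum_nonneg (fun z _ => mul_nonneg (law_nonneg _ _ _) (law_nonneg _ _ _))

theorem TV_log {u : ℝ} (h1 : -(1 / 4) ≤ u) : u - 2 * u ^ 2 ≤ Real.log (1 + u) := by
  have h0 : 0 < 1 + u := by linarith
  have h2 := Real.one_sub_inv_le_log_of_pos h0
  have h3 : u - 2 * u ^ 2 ≤ 1 - (1 + u)⁻¹ := by
    have h4 : 1 - (1 + u)⁻¹ = u / (1 + u) := by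
      field_simp
      ring
    rw [h4, le_div_iff₀ h0]
    nlinarith [sq_nonneg u, mul_nonneg (sq_nonneg u) (by linarith : (0 : ℝ) ≤ 1 + 2 * u)]
  linarith

/-- the information of `π (x + x')` about `x'` is at least the square of the mean total
variation distance (times `1/8`) -/
theorem J_tv [Fintype Q] (π : G →+ Q) {X X' : Finset G} (hX : X.Nonempty)
    (hX' : X'.Nonempty) {τ : ℝ}
    (hτ : τ = ∑ z, law π X' z * tv (tr (law π X) z) (conv (law π X) (law π X'))) :
    SJ π X X' + X.card * X'.card * (τ ^ 2 / 8) ≤ J2 X X' := by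
  classical
  set F := law π X with hF
  set F' := law π X' with hF'
  set C := conv F F' with hC
  have hFn : ∀ w, 0 ≤ F w := fun w => law_nonneg π X w
  have hFn' : ∀ w, 0 ≤ F' w := fun w => law_nonneg π X' w
  have hCn : ∀ w, 0 ≤ C w := fun w => TV_conv_nonneg π X X' w
  have hCs : ∑ w, C w = 1 := TV_conv_sum π hX hX'
  have hFs : ∀ z, ∑ w, F (w - z) = 1 := fun z => TV_tr_sum π hX z
  have hFs' : ∑ w, F' w = 1 := law_sum π hX'
  -- total variation
  have htv0 : ∀ z, 0 ≤ tv (tr F z) C := by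
    intro z; unfold tv
    have : 0 ≤ ∑ w, |tr F z w - C w| := sum_nonneg (fun w _ => abs_nonneg _)
    linarith
  have htv1 : ∀ z, tv (tr F z) C ≤ 1 := by
    intro z; unfold tv tr
    have h1 : ∑ w, |F (w - z) - C w| ≤ ∑ w, (F (w - z) + C w) := by
      refine sum_le_sum (fun w _ => ?_)
      rw [abs_le]; constructor <;> linarith [hFn (w - z), hCn w]
    rw [sum_add_distrib, hFs z, hCs] at h1
    linarith
  have hτ0 : 0 ≤ τ := by
    rw [hτ]; exact sum_nonneg (fun z _ => mul_nonneg (hFn' z) (htv0 z))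
  have hτ1 : τ ≤ 1 := by
    rw [hτ, ← hFs']
    refine sum_le_sum (fun z _ => ?_)
    nlinarith [hFn' z, htv0 z, htv1 z]
  set t := τ / 4 with ht
  have ht0 : 0 ≤ t := by rw [ht]; linarith
  have ht1 : t ≤ 1 / 4 := by rw [ht]; linarith
  set e : Q → Q → ℝ := fun z w => if C w < F (w - z) then 1 else 0 with he
  have he0 : ∀ z w, 0 ≤ e z w := by
    intro z w; simp only [he]; split_ifs <;> norm_num
  have he1 : ∀ z w, e z w ≤ 1 := by
    intro z w; simp only [he]; split_ifs <;> norm_num
  set ψ : Q → ℝ := fun w => ∑ z, F' z * e z w with hψ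
  have hψ0 : ∀ w, 0 ≤ ψ w := fun w => sum_nonneg (fun z _ => mul_nonneg (hFn' z) (he0 z w))
  have hψ1 : ∀ w, ψ w ≤ 1 := by
    intro w
    rw [← hFs']
    refine sum_le_sum (fun z _ => ?_)
    nlinarith [hFn' z, he0 z w, he1 z w]
  set u : Q → Q → ℝ := fun z w => t * (e z w - ψ w) with hu
  have hu1 : ∀ z w, -t ≤ u z w := by
    intro z w
    have : -1 ≤ e z w - ψ w := by linarith [he0 z w, hψ1 w]
    simp only [hu]
    nlinarith
  have hu2 : ∀ z w, u z w ≤ t := by
    intro z w
    have : e z w - ψ w ≤ 1 := by linarith [he1 z w, hψ0 w]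
    simp only [hu]
    nlinarith
  have hu3 : ∀ z w, u z w ^ 2 ≤ t ^ 2 := by
    intro z w
    exact sq_le_sq' (by linarith [hu1 z w]) (hu2 z w)
  have hX'c : (X'.card : ℝ) ≠ 0 := by exact_mod_cast hX'.card_pos.ne'
  -- the guess
  have hguess := J_guess π X X' (fun z w => 1 + u z w)
    (fun z w => by linarith [hu1 z w])
    (by
      intro w
      have h1 : ∑ c' ∈ X'.image π, ((cl π X' c').card : ℝ) * (1 + u c' w) =
          ∑ y ∈ X', (1 + u (π y) w) := by
        rw [Finset.sum_comp (fun c => 1 + u c w) π]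
        refine sum_congr rfl (fun c _ => ?_)
        rw [nsmul_eq_mul]
        rfl
      rw [h1, TV_comp π hX' (fun c => 1 + u c w)]
      have h2 : ∑ z, F' z * (1 + u z w) = 1 := by
        have h3 : ∀ z, F' z * (1 + u z w) = F' z + (t * (F' z * e z w) - t * ψ w * F' z) := by
          intro z; simp only [hu]; ring
        rw [sum_congr rfl (fun z _ => h3 z), sum_add_distrib, sum_sub_distrib, ← Finset.mul_sum,
          ← Finset.mul_sum, hFs']
        simp only [hψ]
        ring
      have h4 : ∑ w_1, law π X' w_1 * (1 + u w_1 w) = 1 := h2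
      rw [h4, mul_one])
  -- the linear part
  have hlin : ∑ x ∈ X, ∑ y ∈ X', u (π y) (π (x + y)) = X.card * X'.card * (t * τ) := by
    rw [TV_pair π hX hX' u]
    congr 1
    have h1 : ∀ z, F' z * ∑ w, F (w - z) * u z w =
        t * (F' z * ∑ w, F (w - z) * e z w) - t * ∑ w, (F' z * F (w - z)) * ψ w := by
      intro z
      rw [Finset.mul_sum, Finset.mul_sum, Finset.mul_sum, Finset.mul_sum, ← sum_sub_distrib]
      refine sum_congr rfl (fun w _ => ?_)
      simp only [hu]; ring
    have h2 : ∑ z, ∑ w, (F' z * F (w - z)) * ψ w = ∑ z, F' z * ∑ w, C w * e z w := by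
      rw [sum_comm]
      have h3 : ∀ w, ∑ z, (F' z * F (w - z)) * ψ w = ∑ z, F' z * (C w * e z w) := by
        intro w
        rw [← Finset.sum_mul]
        have h4 : ∑ z, F' z * F (w - z) = C w := rfl
        rw [h4]
        simp only [hψ]
        rw [Finset.mul_sum]
        refine sum_congr rfl (fun z _ => ?_)
        ring
      rw [sum_congr rfl (fun w _ => h3 w), sum_comm]
      refine sum_congr rfl (fun z _ => ?_)
      rw [Finset.mul_sum]
    have h5 : ∀ z, ∑ w, (F (w - z) - C w) * e z w = tv (tr F z) C := by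
      intro z
      unfold tv tr
      have h6 : ∀ w, (F (w - z) - C w) * e z w =
          (|F (w - z) - C w| + (F (w - z) - C w)) / 2 := by
        intro w
        simp only [he]
        split_ifs with h
        · rw [abs_of_pos (by linarith)]; ring
        · rw [abs_of_nonpos (by linarith)]; ring
      rw [sum_congr rfl (fun w _ => h6 w), ← Finset.sum_div, sum_add_distrib, sum_sub_distrib,
        hFs z, hCs]
      ring
    have h7 : ∑ z, F' z * ∑ w, F (w - z) * u z w = t * τ := by
      rw [sum_congr rfl (fun z _ => h1 z), sum_sub_distrib, ← Finset.mul_sum, ← Finset.mul_sum,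
        h2, ← mul_sub, ← sum_sub_distrib, hτ]
      congr 1
      refine sum_congr rfl (fun z _ => ?_)
      rw [← h5 z, ← mul_sub, ← sum_sub_distrib]
      congr 1
      refine sum_congr rfl (fun w _ => ?_)
      ring
    exact h7
  have hlow : ∑ x ∈ X, ∑ y ∈ X', (u (π y) (π (x + y)) - 2 * t ^ 2) ≤
      ∑ x ∈ X, ∑ y ∈ X', Real.log (1 + u (π y) (π (x + y))) := by
    refine sum_le_sum (fun x _ => sum_le_sum (fun y _ => ?_))
    have h1 := TV_log (u := u (π y) (π (x + y))) (by linarith [hu1 (π y) (π (x + y))])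
    have h2 := hu3 (π y) (π (x + y))
    linarith
  have hsplit : ∑ x ∈ X, ∑ y ∈ X', (u (π y) (π (x + y)) - 2 * t ^ 2) =
      X.card * X'.card * (t * τ) - X.card * X'.card * (2 * t ^ 2) := by
    rw [← hlin]
    have : ∀ x ∈ X, ∑ y ∈ X', (u (π y) (π (x + y)) - 2 * t ^ 2) =
        ∑ y ∈ X', u (π y) (π (x + y)) - X'.card * (2 * t ^ 2) := by
      intro x _
      rw [sum_sub_distrib, sum_const, nsmul_eq_mul]
    rw [sum_congr rfl this, sum_sub_distrib, sum_const, nsmul_eq_mul]
    ring
  have hfin : (X.card : ℝ) * X'.card * (τ ^ 2 / 8) =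
      X.card * X'.card * (t * τ) - X.card * X'.card * (2 * t ^ 2) := by
    rw [ht]; ring
  have hguess' : SJ π X X' + ∑ x ∈ X, ∑ y ∈ X', Real.log (1 + u (π y) (π (x + y))) ≤ J2 X X' :=
    hguess
  linarith

end Pool.Agent.Helper88.TL
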